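import Pool.Agent.X180.Iso.Alb2
import Pool.Agent.TH466.QG.ATop
import Pool.Agent.W619.Y.Unir

/-!
# Nonnegative Kodaira dimension for fibrations over bases with highly ramified linear systems whose
fibres have maximal Albanese dimension over a constant variety

Let `X` be a smooth projective variety of dimension `d + e` and `|V|` a linear system on `X`, without
fixed components, of dimension `n`, whose rational map `X ⇢ ℙⁿ` has an image `Y` of dimension `d`,
`1 ≤ d ≤ n`. `Y` may be any nondegenerate variety of dimension `d`, for instance a rational one.
Let `D i` (`i < q`) be members of `|V|` which span `V`, in arbitrary position, `c` the number of the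
components of this configuration, and suppose that at every prime divisor `P` of `X` which is a
component of some `D i` the multiplicities of `P` in two members `D i`, `D i'` of one component of the
configuration differ by at least `s`, where `s ≥ (n + 3 - c) (n - d + 1) (n - d + 2) / 2`.

Suppose that after a generically finite base change `Y' → Y` there is a rational map from
`X' = X ×_Y Y'` to `Y' × F` over `Y'` which is generically finite onto its image, where `F` is a smooth
projective variety of any dimension `f` whose cotangent bundle is generically generated by global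
sections `ω i` (for instance, `F` is an abelian variety, a product of curves of positive genus, or any
variety with a generically finite map to an abelian variety). The fibres need not be isotrivial:
they are for instance arbitrary families of subvarieties of an abelian variety, or of covers of such
subvarieties. Then `κ(X) ≥ 0` and `X` is not uniruled. More precisely `κ(X) ≥ λ` if `λ` of the ratios
of the exterior products of `e` of the forms `ω i` are algebraically independent over the function
field of `Y` on the fibres (for subvarieties of abelian varieties, `λ` is the dimension of the image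
of the Gauss map of a general fibre), and `κ(X) ≥ λ + d + 1 - c` if the inequality for `s` is strict.

Notation: `K` and `M` are the function fields of `X` and `F`, `K'` that of `X'`; prime divisors are
places (`Place`, `Divisorial`), `P.ord` is the order along `P`, vector fields are derivations. If `a`
is the minimum of the orders at `P` of the members of `V` then the multiplicity of `P` in the divisor
given by `f ∈ V` is `P.ord f - a`. `KodGe ℂ K w (fun _ => False) κ`: the Kodaira dimension is at least
`κ` (`Pool/Agent/W602/GT`); `IsUniruled`: `Pool/Agent/W619/PQ/Defs.lean`.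

Proof: a vector field `G` on `X` which is tangent to the fibres and regular at the prime divisor `P`
lifts to a vector field on `X'` which is regular at the prime divisors over `P`. Therefore the norms
of the determinants of the values of the pull backs of `e` of the forms `ω i` at `e` such vector fields
are forms along the fibres of `X` which take regular values on regular vector fields. They are
multiplied with generalised Wronskians of `V`.
-/

set_option autoImplicit false

open FF Pool.Agent.W602.GT
open Pool.Agent.W619.PQ (IsUniruled)

namespace Pool.Agent.Results.MP_e06174_ag.ConstantAlbanese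

/-- The function field of the image of the rational map which is given by the linear system `V`: the
field generated by the quotients of the members. -/
noncomputable def ImageField {K : Type} [Field K] [Algebra ℂ K] (V : Submodule ℂ K) :
    IntermediateField ℂ K :=
  IntermediateField.adjoin ℂ {y : K | ∃ f ∈ V, ∃ g ∈ V, y = f / g}

/-- `γ` is a decomposition of the configuration of the members `φ i` of `V` into `c` components: `V`
has a basis of `n + 1` elements `x a`, divided into `c` nonempty groups (`x a` is in the group `g a`),
such that `φ i` is in the subspace spanned by the elements of the group `γ i`. -/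
def Decomposition (n : ℕ) {q c : ℕ} {K : Type} [Field K] [Algebra ℂ K] (V : Submodule ℂ K)
    (φ : Fin q → K) (γ : Fin q → Fin c) : Prop :=
  ∃ (x : Fin (n + 1) → K) (g : Fin (n + 1) → Fin c), LinearIndependent ℂ x ∧
    Submodule.span ℂ (Set.range x) = V ∧ Function.Surjective g ∧
    ∀ i, φ i ∈ Submodule.span ℂ (x '' {a | g a = γ i})

/-- There are `r` members `φ i` of which no two are proportional. -/
def Different (r : ℕ) {q : ℕ} {K : Type} [Field K] [Algebra ℂ K] (φ : Fin q → K) : Prop :=
  ∃ τ : Fin r → Fin q, ∀ i j, i ≠ j → ∀ t : ℂ, φ (τ i) ≠ t • φ (τ j)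

/-- The condition on the multiplicities, on a variety `X` of dimension `w`: if the prime divisor `P`
of `X` is a component of one of the divisors `D i` (the order of `φ i` at `P` is not the minimum `a`
of the orders of the members of `V`), then for some members `D i`, `D i'` of the same component of
the configuration the difference of the multiplicities of `P` is at least `s`. -/
def Multiplicities (w : ℕ) {q c : ℕ} {K : Type} [Field K] [Algebra ℂ K] (V : Submodule ℂ K)
    (φ : Fin q → K) (γ : Fin q → Fin c) (s : ℝ) : Prop :=
  ∀ P : Place ℂ K, Divisorial w P → ∀ a : ℤ, (∀ f ∈ V, f = 0 ∨ a ≤ P.ord f) →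
    (∃ f ∈ V, f ≠ 0 ∧ P.ord f = a) → (∃ i, P.ord (φ i) ≠ a) →
    ∃ i i', γ i' = γ i ∧ s ≤ ((P.ord (φ i) - P.ord (φ i') : ℤ) : ℝ)

section

variable {K K' : Type} [Field K] [Field K'] [Algebra ℂ K] [Algebra ℂ K'] [Algebra K K']
  [IsScalarTower ℂ K K']

/-- `K'` is the function field of a component `X'` of the base change of `X` to a variety `Y'` with a
generically finite map to `Y`, where `L` is the function field of `Y`: it is generated over `K` by an
element `α` which is algebraic over `L`. -/
def BaseChange (L : IntermediateField ℂ K) (α : K') : Prop :=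
  IsAlgebraic L α ∧ IntermediateField.adjoin K {α} = ⊤

/-- The rational map from the fibres of `X' ⇢ Y` to the variety `F` with the function field `M` is
generically finite onto its image: the elements of `K'` are algebraic over the field which is
generated by `M` and the elements which are algebraic over `L`. -/
def GenericallyFinite (L : IntermediateField ℂ K) (M : IntermediateField ℂ K') : Prop :=
  ∀ z : K', IsAlgebraic (IntermediateField.adjoin ℂ ({a : K' | IsAlgebraic L a} ∪ M)) z

/-- `ω` (a linear function of the rational vector fields) is a regular differential form on the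
variety `F` of dimension `f` with function field `M`: its values on vector fields which are regular
at a prime divisor are regular there. -/
def IsRegularForm {M : IntermediateField ℂ K'} (f : ℕ) (ω : Derivation ℂ M M →ₗ[M] M) : Prop :=
  ∀ u : Place ℂ M, Divisorial f u → ∀ D, DerReg u D → u.Reg (ω D)

/-- The forms `ω i` generate the cotangent bundle of `F` at the generic point: a rational vector field
on which all of them vanish is zero. -/
def Generate {M : IntermediateField ℂ K'} {r : ℕ} (ω : Fin r → Derivation ℂ M M →ₗ[M] M) : Prop :=
  ∀ D, (∀ i, ω i D = 0) → D = 0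

/-- `ω'` is the pull back of `ω` to `X'`: if the vector field `G` on `X'` extends the vector field `D`
on `F` then the value of `ω'` at `G` is the value of `ω` at `D`. -/
def IsPullback {M : IntermediateField ℂ K'} (ω : Derivation ℂ M M →ₗ[M] M)
    (ω' : Derivation ℂ K' K' →ₗ[K'] K') : Prop :=
  ∀ (D : Derivation ℂ M M) (G : Derivation ℂ K' K'),
    (∀ m : M, G (m : K') = ((D m : M) : K')) → ω' G = ((ω D : M) : K')

/-- The value of the exterior product of the forms `ω' (I b)` at the vector fields `G a`. -/
noncomputable def wedge {e r : ℕ} (ω' : Fin r → Derivation ℂ K' K' →ₗ[K'] K') (I : Fin e → Fin r)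
    (G : Fin e → Derivation ℂ K' K') : K' :=
  (Matrix.of fun a b => ω' (I b) (G a) : Matrix (Fin e) (Fin e) K').det

end

theorem not_uniruled {K : Type} [Field K] [Algebra ℂ K] [Algebra.EssFiniteType ℂ K] {n : ℕ}
    (hn : Algebra.trdeg ℂ K = n) (h : KodGe ℂ K n (fun _ => False) 0) : ¬ IsUniruled ℂ K n :=
  fun hu => (Pool.Agent.W619.Y.uniruled_neg n hn hu).1
    ((Pool.Agent.TH466.QG.psef_iff n).1 (psef_of_kodGe h))

/-- Let `K` be the function field of a smooth projective variety `X` of dimension `d + e`, `V` a
linear system of dimension `n` on `X` whose rational map has an image `Y` of dimension `d`,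
`1 ≤ d ≤ n`; `φ i` nonzero members which span `V`, `γ` their decomposition into `c` components (there
is no decomposition into `c + 1` components), `R = n + 3 - c`, or `R = n + 1` if `c = 1` and there are
`n + 3` different members, and `s ≥ R (n - d + 1) (n - d + 2) / 2` a number for which the condition on
the multiplicities holds. Let `X'` be a base change of `X` to a variety with a generically finite map
to `Y` and `F` a smooth projective variety of dimension `f` whose cotangent bundle is generically
generated by global sections `ω i`, and let there be a rational map from `X'` to `F` whose restriction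
to the general fibres over `Y` is generically finite onto its image.

**(1)** `κ(X) ≥ 0` and `X` is not uniruled, and `κ(X) ≥ d + 1 - c` if the inequality for `s` is
strict.

**(2)** If for vector fields `G a` which are tangent to the fibres of `X' ⇢ Y` the ratios of the
values of `λ + 1` of the exterior products of `e` of the forms are algebraically independent over the
function field of `Y` then `κ(X) ≥ λ`, and `κ(X) ≥ λ + d + 1 - c` if the inequality for `s` is
strict. -/
theorem result (d e f r n q c : ℕ) (hd : 1 ≤ d) (hdn : d ≤ n) (K : Type) [Field K]
    [Algebra ℂ K] [Algebra.EssFiniteType ℂ K] (hK : Algebra.trdeg ℂ K = (d + e : ℕ))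
    (V : Submodule ℂ K) (hV : Algebra.trdeg ℂ (ImageField V) = d)
    (φ : Fin q → K) (hφ0 : ∀ i, φ i ≠ 0) (hφ : Submodule.span ℂ (Set.range φ) = V)
    (γ : Fin q → Fin c) (hγ : Decomposition n V φ γ)
    (hc : ∀ γ' : Fin q → Fin (c + 1), ¬ Decomposition n V φ γ')
    (R : ℕ) (hR : R + c = n + 3 ∨ (c = 1 ∧ Different (n + 3) φ ∧ R = n + 1)) (s : ℝ)
    (hs : (R : ℝ) * (((n : ℝ) - d + 1) * ((n : ℝ) - d + 2)) ≤ 2 * s)
    (h : Multiplicities (d + e) V φ γ s) (K' : Type) [Field K'] [Algebra ℂ K'] [Algebra K K']
    [IsScalarTower ℂ K K'] (α : K') (hα : BaseChange (ImageField V) α)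
    (M : IntermediateField ℂ K') [Algebra.EssFiniteType ℂ M] (hM : Algebra.trdeg ℂ M = f)
    (ω : Fin r → Derivation ℂ M M →ₗ[M] M) (hω : ∀ i, IsRegularForm f (ω i))
    (hgen : Generate ω) (hfin : GenericallyFinite (ImageField V) M) :
    (KodGe ℂ K (d + e) (fun _ => False) 0 ∧ ¬ IsUniruled ℂ K (d + e) ∧
      ((R : ℝ) * (((n : ℝ) - d + 1) * ((n : ℝ) - d + 2)) < 2 * s →
        ∀ κ : ℕ, κ + c = d + 1 → KodGe ℂ K (d + e) (fun _ => False) κ)) ∧
    (∀ (lam : ℕ) (ω' : Fin r → Derivation ℂ K' K' →ₗ[K'] K'), (∀ i, IsPullback (ω i) (ω' i)) →
      ∀ (I : Fin (lam + 1) → Fin e → Fin r) (G : Fin e → Derivation ℂ K' K'),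
      (∀ i, ∀ a ∈ ImageField V, G i (algebraMap K K' a) = 0) → wedge ω' (I 0) G ≠ 0 →
      AlgebraicIndependent (ImageField V)
        (fun i : Fin lam => wedge ω' (I i.succ) G / wedge ω' (I 0) G) →
      KodGe ℂ K (d + e) (fun _ => False) lam ∧
      ((R : ℝ) * (((n : ℝ) - d + 1) * ((n : ℝ) - d + 2)) < 2 * s →
        ∀ κ : ℕ, κ + c = d + 1 → KodGe ℂ K (d + e) (fun _ => False) (κ + lam))) := by
  have hfd : FiniteDimensional K K' := Pool.Agent.X180.Iso.fin_of_top hα.1 hα.2
  have hL := Pool.Agent.X180.Iso.trdeg_rel hK hV
  have h2 : ∀ (lam : ℕ) (ω' : Fin r → Derivation ℂ K' K' →ₗ[K'] K'),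
      (∀ i, IsPullback (ω i) (ω' i)) →
      ∀ (I : Fin (lam + 1) → Fin e → Fin r)
        (G : Fin e → Derivation (Pool.Agent.Y191.upF K' (ImageField V)) K' K'),
      Pool.Agent.X180.Iso.minor _ ω' (I 0) G ≠ 0 →
      AlgebraicIndependent (ImageField V)
        (fun i : Fin lam => Pool.Agent.X180.Iso.minor _ ω' (I i.succ) G /
          Pool.Agent.X180.Iso.minor _ ω' (I 0) G) →
      KodGe ℂ K (d + e) (fun _ => False) lam ∧
      ((R : ℝ) * (((n : ℝ) - d + 1) * ((n : ℝ) - d + 2)) < 2 * s →
        ∀ κ : ℕ, κ + c = d + 1 → KodGe ℂ K (d + e) (fun _ => False) (κ + lam)) := by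
    intro lam ω' hω' I G hne hind
    refine Pool.Agent.X180.Iso.iso_kod hd hdn hK hV hφ0 hφ hγ hc hR hs h ?_
    exact Pool.Agent.X180.Iso.alb_forms hK hL hα.1 hα.2 hM hω hω' I G hne hind _
  refine ⟨?_, fun lam ω' hω' I G hG hne hind => ?_⟩
  · choose ω' hω' using fun i => Pool.Agent.X180.Iso.exists_pull (K := K') hM (ω i)
    obtain ⟨I, G, hIG⟩ := Pool.Agent.X180.Iso.exists_minor
      (Pool.Agent.Y191.upF K' (ImageField V)) (Pool.Agent.X180.Iso.trdeg_up hL) hM hgen hω'
      fun z => Pool.Agent.X180.Iso.alg_acl M (hfin z)
    obtain ⟨h3, h4⟩ := h2 0 ω' hω' (fun _ => I) G hIG (by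
      rw [algebraicIndependent_empty_type_iff]
      exact FaithfulSMul.algebraMap_injective _ _)
    exact ⟨h3, not_uniruled hK h3, h4⟩
  · have hk : ∀ i, Pool.Agent.Y172.Kills (G i) (Pool.Agent.Y191.upF K' (ImageField V)) := by
      intro i z hz
      obtain ⟨a, ha, rfl⟩ := Pool.Agent.Y191.mem_upF.1 hz
      exact hG i a ha
    exact h2 lam ω' hω' I (fun i => Pool.Agent.Y172.liftD _ _ (hk i)) hne hind

end Pool.Agent.Results.MP_e06174_ag.ConstantAlbanese
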