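import Pool.Agent.X180.Unr.Arr
import Pool.Agent.TH756.PR.Cov
import Pool.Agent.TH466.QG.ATop
import Pool.Agent.W619.Y.Unir

/-!
# Negative Kodaira dimension and uniruledness for arbitrary covers of products of projective spaces
which are unramified outside arrangements of hyperplanes

For `i < r` let `ℓ i k = 0`, `k < q i`, be hyperplanes in projective `n i`-space, an arbitrary
arrangement, let `N` be the sum of the numbers `n i`, and let `V` be a smooth projective variety of
dimension `N` with a generically finite rational map to the product of the projective spaces which is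
unramified outside of the hyperplanes. Nothing else is assumed about the map: it need not be abelian
or Galois. If the multiplicities of the hyperplanes at the prime divisors over `V` are large enough
(the bound does not depend on the number of hyperplanes), then `κ(V) = -∞` if and only if `V` is
uniruled. New here is that `V` is uniruled if one of the arrangements is reducible, which was only
known for abelian covers.

Proof of the new part: if the arrangement in one factor is reducible then the function field of the
product is `E(t)`, `E` a field of transcendence degree `N - 1`, such that the places of `E(t)` over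
`E` except for `t = 0` and `t = ∞` do not lie over the hyperplanes. Let `M` be the composite of the
function field `K` of `V` and the algebraic closure of `E`. If `M` is not rational there is a regular
differential `f dt / t`; by Galois descent there is one with `f` in `K`. The ramification index of a
place of `M` over `t = c` is that over `K`, as `K` is unramified over `E(t)`, and so `f` is regular
there. At `t = 0` and `t = ∞` it vanishes, so that `f = 0`. Hence `M` is rational.

`Form`, `Reducible`: `Pool/Agent/W602/Cov`; `Divisorial`, `KodGe`, `Psef`, `GeneralType`: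
`Pool/Agent/W602/GT`; `IsUniruled`: `Pool/Agent/W619/PQ/Defs.lean`.
-/

set_option autoImplicit false

open FF Module Pool.Agent.W602.Cov Pool.Agent.W602.GT
open Pool.Agent.W619.PQ (IsUniruled)

namespace Pool.Agent.Results.MP_e06174_ag.CoversUnramifiedOutside

/-- In suitable linear coordinates `X 0, ..., X n` each of the hyperplanes is one of `X j = 0` or
`X 0 + ... + X n = 0`. The arrangements with this property which are not reducible are, up to
repetitions, the arrangements of `n + 2` hyperplanes in general position. -/
def Simplicial {n q : ℕ} (ℓ : Fin q → Form n) : Prop :=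
  ∃ X : Basis (Fin (n + 1)) ℂ (Form n), ∀ i,
    (∃ c : ℂ, ℓ i = c • ∑ j, X j) ∨ ∃ (j : Fin (n + 1)) (c : ℂ), ℓ i = c • X j

/-- The bound for one arrangement in projective `n`-space: `n + 2`, and even `n + 1` if the
arrangement does not consist of `n + 2` hyperplanes in general position. -/
def Bound {n q : ℕ} (ℓ : Fin q → Form n) (d : ℕ) : Prop :=
  d = n + 2 ∨ (d = n + 1 ∧ (Reducible ℓ ∨ ¬ Simplicial ℓ))

/-- The value of a linear form at a vector over `K`. -/
noncomputable def form {n : ℕ} {K : Type} [Field K] [Algebra ℂ K] (φ : Form n)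
    (x : Fin (n + 1) → K) : K := ∑ j, algebraMap ℂ K (φ (Pi.single j 1)) * x j

variable {r N : ℕ} {n q : Fin r → ℕ}

/-- The affine coordinates `x i j / x i 0` of the points with the homogeneous coordinates `x i`. -/
def affine {K : Type} [Field K] (x : ∀ i, Fin (n i + 1) → K) (b : (i : Fin r) × Fin (n i)) : K :=
  x b.1 b.2.succ / x b.1 0

/-- The sum of the maximal multiplicities `v i k / d i` is at least `1`. -/
def Large (d : Fin r → ℕ) (v : ∀ i, Fin (q i) → ℕ) : Prop :=
  ∃ k : ∀ i, Fin (q i), (1 : ℚ) ≤ ∑ i, (v i (k i) : ℚ) / d i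

/-- The multiplicities over the arrangements of a variety of dimension `N` with function field `K`
and rational maps `[x i 0 : ... : x i (n i)]` to the projective spaces: at every prime divisor `P`
the hyperplane `ℓ i k` has the order `a i + v i k`, where `a i` is the minimum of the orders of all
linear forms on the `i`-th factor, and if some `v i k` is not `0` then `v` is large. -/
def MultiplicitiesOver (N : ℕ) (ℓ : ∀ i, Fin (q i) → Form (n i)) {K : Type} [Field K]
    [Algebra ℂ K] (x : ∀ i, Fin (n i + 1) → K) (d : Fin r → ℕ) : Prop :=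
  ∀ P : Place ℂ K, Divisorial N P → ∀ (a : Fin r → ℤ) (v : ∀ i, Fin (q i) → ℕ),
    (∀ i (φ : Form (n i)), form φ (x i) = 0 ∨ a i ≤ P.ord (form φ (x i))) →
    (∀ i, ∃ φ : Form (n i), form φ (x i) ≠ 0 ∧ P.ord (form φ (x i)) = a i) →
    (∀ i k, P.ord (form (ℓ i k) (x i)) = a i + v i k) → (∃ i, v i ≠ 0) → Large d v

/-- The centre of the prime divisor `P` in projective space (the image of `P` under the rational map
`[x 0 : ... : x n]`) is not contained in one of the hyperplanes `ℓ i = 0`: the orders of the
`ℓ i (x)` are the minimum of the orders of all linear forms. -/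
def Off {n q : ℕ} (ℓ : Fin q → Form n) {K : Type} [Field K] [Algebra ℂ K]
    (x : Fin (n + 1) → K) (P : Place ℂ K) : Prop :=
  ∃ a : ℤ, (∀ φ : Form n, form φ x = 0 ∨ a ≤ P.ord (form φ x)) ∧
    ∀ i, P.ord (form (ℓ i) x) = a

/-- The ramification index of the place `P` of `K` over the subfield `F` is one. -/
def Unramified {K : Type} [Field K] [Algebra ℂ K] (P : Place ℂ K) (F : IntermediateField ℂ K) :
    Prop := ∃ z ∈ F, P.ord z = 1

/-- The ratios of the values of the linear forms `ℓ i` at `x` have `N`-th roots in `K`. -/
def Roots {n q : ℕ} (ℓ : Fin q → Form n) {K : Type} [Field K] [Algebra ℂ K]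
    (x : Fin (n + 1) → K) (N : ℕ) : Prop :=
  ∀ i j, ∃ z : K, form (ℓ i) x = form (ℓ j) x * z ^ N

theorem uniruled_down {K L : Type} [Field K] [Field L] [Algebra ℂ K] [Algebra ℂ L] [Algebra L K]
    [IsScalarTower ℂ L K] {n : ℕ} (h : IsUniruled ℂ K n) : IsUniruled ℂ L n := by
  obtain ⟨M, _, _, h1, h2, ⟨f⟩⟩ := h
  exact ⟨M, inferInstance, inferInstance, h1, h2, ⟨f.comp (IsScalarTower.toAlgHom ℂ L K)⟩⟩

theorem not_psef_of_uniruled {K : Type} [Field K] [Algebra ℂ K] [Algebra.EssFiniteType ℂ K] {n : ℕ}
    (hn : Algebra.trdeg ℂ K = n) (h : IsUniruled ℂ K n) : ¬ Psef ℂ K n (fun _ => False) :=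
  fun hp => (Pool.Agent.W619.Y.uniruled_neg n hn h).1 ((Pool.Agent.TH466.QG.psef_iff n).1 hp)

/-- **(1)** Let `ℓ i` be arbitrary arrangements in `r` projective spaces of dimensions `n i`, `d i` the
bounds, and let `V` be a smooth projective variety with function field `K` and a generically finite
rational map to the product of the projective spaces, unramified outside of the hyperplanes, with
large multiplicities. Then `κ(V) = -∞` if and only if `K_V` is not pseudo-effective, if and only if
`V` is uniruled, if and only if one of the arrangements is reducible.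
**(2)** Let `V` have a generically finite rational map to projective `n`-space, unramified outside of
the hyperplanes of an arbitrary arrangement whose forms have ratios with `N`-th roots in the function
field of `V`, `N > (n + 2) (5 s - 4)`. Let `W` be any smooth projective variety which is dominated by
`V` with degree at most `s`, for instance the quotient by at most `s` automorphisms. Then
`κ(W) = -∞` if and only if `K_W` is not pseudo-effective, if and only if `W` is uniruled, if and only
if `W` is not of general type, if and only if the arrangement is reducible. -/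
theorem result :
    (∀ (r N : ℕ) (n q : Fin r → ℕ), (∀ i, 1 ≤ n i) → N = ∑ i, n i →
      ∀ ℓ : ∀ i, Fin (q i) → Form (n i), (∀ i k, ℓ i k ≠ 0) →
      ∀ d : Fin r → ℕ, (∀ i, Bound (ℓ i) (d i)) →
      ∀ (K : Type) [Field K] [Algebra ℂ K] [Algebra.EssFiniteType ℂ K]
        (x : ∀ i, Fin (n i + 1) → K), (∀ i, x i 0 ≠ 0) → IsTranscendenceBasis ℂ (affine x) →
      MultiplicitiesOver N ℓ x d →
      (∀ P : Place ℂ K, Divisorial N P → (∀ i, Off (ℓ i) (x i) P) →
        Unramified P (IntermediateField.adjoin ℂ (Set.range (affine x)))) →
      [¬ KodGe ℂ K N (fun _ => False) 0, ¬ Psef ℂ K N (fun _ => False), IsUniruled ℂ K N,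
        ∃ i, Reducible (ℓ i)].TFAE) ∧
    (∀ n q N s : ℕ, 1 ≤ n → 5 * (n + 2) * s < N + 4 * (n + 2) →
      ∀ ℓ : Fin q → Form n, (∀ i, ℓ i ≠ 0) →
      ∀ (K : Type) [Field K] [Algebra ℂ K] [Algebra.EssFiniteType ℂ K]
        (x : Fin (n + 1) → K), x 0 ≠ 0 →
      IsTranscendenceBasis ℂ (fun j : Fin n => x j.succ / x 0) → Roots ℓ x N →
      (∀ P : Place ℂ K, Divisorial n P → Off ℓ x P →
        Unramified P (IntermediateField.adjoin ℂ (Set.range fun j : Fin n => x j.succ / x 0))) →
      ∀ (L : Type) [Field L] [Algebra ℂ L] [Algebra L K] [IsScalarTower ℂ L K]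
        [FiniteDimensional L K], Module.finrank L K ≤ s →
        [¬ KodGe ℂ L n (fun _ => False) 0, ¬ Psef ℂ L n (fun _ => False), IsUniruled ℂ L n,
          ¬ GeneralType ℂ L n, Reducible ℓ].TFAE) := by
  constructor
  · intro r N n q hn hN ℓ hℓ d hd K _ _ _ x hx0 hbas hm hun
    subst hN
    have htr : Algebra.trdeg ℂ K = (∑ i, n i : ℕ) := by
      have h1 := hbas.cardinalMk_eq_trdeg
      rw [← h1, Cardinal.mk_fintype, Fintype.card_sigma]
      simp
    tfae_have 4 → 3 := by
      rintro ⟨i, hi⟩
      refine Pool.Agent.X180.Unr.reducible_uniruled hℓ i hi hx0 hbas htr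
        fun P hP a h1 _ h3 => hun P hP fun i => ⟨a i, h1 i, h3 i⟩
    tfae_have 3 → 2 := not_psef_of_uniruled htr
    tfae_have 2 → 1 := fun h hk => h (psef_of_kodGe hk)
    tfae_have 1 → 4 := by
      intro h
      by_contra hirr
      push Not at hirr
      exact h (Pool.Agent.TH756.PR.over_kodGeP finSigmaFinEquiv hn hℓ hirr d hd hx0 hbas _
        fun P hP _ a v hv hv0 => hm P hP a v hv.1 hv.2.1 hv.2.2 hv0)
    tfae_finish
  · intro n q N s hn hN ℓ hℓ K _ _ _ x hx0 hbas hroots hun L _ _ _ _ _ hs
    have htr : Algebra.trdeg ℂ K = n := by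
      have h1 := hbas.cardinalMk_eq_trdeg
      rw [← h1, Cardinal.mk_fintype, Fintype.card_fin]
    have hL : Algebra.EssFiniteType ℂ L := Pool.Agent.TH466.QG.ess_below (K := K)
    have htrL : Algebra.trdeg ℂ L = n := by
      rw [← htr, ← trdeg_add_eq ℂ L (A := K)]
      have h1 : Algebra.trdeg L K = 0 := by
        rw [trdeg_eq_zero_iff]
        infer_instance
      rw [h1, add_zero]
    tfae_have 5 → 3 := by
      intro hred
      have h1 : IsUniruled ℂ K n := by
        let e : ((_ : Fin 1) × Fin n) ≃ Fin n :=
          ⟨fun b => b.2, fun j => ⟨0, j⟩, fun b => by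
            obtain ⟨i, j⟩ := b
            obtain rfl := Subsingleton.elim i 0
            rfl, fun j => rfl⟩
        have hb : IsTranscendenceBasis ℂ
            (Pool.Agent.TH756.PR.aff (r := 1) (n := fun _ => n) fun _ => x) := hbas.comp_equiv e
        refine Pool.Agent.X180.Unr.reducible_uniruled (r := 1) (n := fun _ => n) (q := fun _ => q)
          (ℓ := fun _ => ℓ) (x := fun _ => x) (fun _ => hℓ) 0 hred (fun _ => hx0) hb htr
          fun P hP a h1 _ h3 => ?_
        obtain ⟨z, hz, hz1⟩ := hun P hP ⟨a 0, h1 0, h3 0⟩
        refine ⟨z, ?_, hz1⟩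
        have h4 : (Set.range fun j : Fin n => x j.succ / x 0) ⊆
            Set.range (Pool.Agent.TH756.PR.aff (r := 1) (n := fun _ => n) fun _ => x) := by
          rintro _ ⟨j, rfl⟩
          exact ⟨⟨0, j⟩, rfl⟩
        exact IntermediateField.adjoin.mono ℂ _ _ h4 hz
      exact uniruled_down h1
    tfae_have 3 → 2 := not_psef_of_uniruled htrL
    tfae_have 2 → 1 := fun h hk => h (psef_of_kodGe hk)
    tfae_have 1 → 4 := fun h hg => h (kod_of_general hg)
    tfae_have 4 → 5 := by
      intro h
      by_contra hirr
      exact h (Pool.Agent.TH466.QG.arr_corr (K := K) (K' := K) hn hs hℓ hirr hx0 hbas hroots hN)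
    tfae_finish

end Pool.Agent.Results.MP_e06174_ag.CoversUnramifiedOutside
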