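import Pool.Agent.X180.Iso.Main
import Pool.Agent.TH466.QG.ATop
import Pool.Agent.W619.Y.Unir

/-!
# Negative Kodaira dimension and uniruledness for isotrivial fibrations over bases with highly
ramified linear systems

Let `X` be a smooth projective variety of dimension `d + e` and `|V|` a linear system on `X`, without
fixed components, of dimension `n`, whose rational map `X ⇢ ℙⁿ` has an image `Y` of dimension `d`,
`1 ≤ d ≤ n`. `Y` may be any nondegenerate variety of dimension `d`, for instance a rational one.
Let `D i` (`i < q`) be members of `|V|` which span `V`, in arbitrary position, `c` the number of the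
components of this configuration, and suppose that at every prime divisor `P` of `X` which is a
component of some `D i` the multiplicities of `P` in two members `D i`, `D i'` of one component of the
configuration differ by at least `s`, where `s ≥ (n + 3 - c) (n - d + 1) (n - d + 2) / 2`.

Suppose that the fibres of `X ⇢ Y` are isotrivial: after a generically finite base change `Y' → Y`
the variety `X' = X ×_Y Y'` is birational to `Y' × F`, where `F` is a smooth projective variety. Then
the problem for `X` is reduced to the problem for `F`, for instance `κ(X) = -∞` if and only if `X` is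
uniruled if `F` is a curve, a surface or a threefold (by the classification of surfaces and by
theorems of Mori and Miyaoka): `κ(X) ≥ κ(F)` if `κ(F) ≥ 0`, and `X` is uniruled if `F` is uniruled. For
`κ(X) ≥ κ(F)` it suffices that the fibres dominate `F`, that is `X'` has a generically finite map to
`Y' × F`.

Notation: `K` and `M` are the function fields of `X` and `F`, `K'` that of `X'`; prime divisors are
places (`Place`, `Divisorial`), `P.ord` is the order along `P`. If `a` is the minimum of the orders at
`P` of the members of `V` then the multiplicity of `P` in the divisor given by `f ∈ V` is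
`P.ord f - a`. `KodGe ℂ K w (fun _ => False) κ`: the Kodaira dimension is at least `κ`; `Psef`: the
canonical divisor is pseudo-effective (`Pool/Agent/W602/GT`); `IsUniruled`:
`Pool/Agent/W619/PQ/Defs.lean`.

Proof: let `η` be a pluricanonical form on `F`. A vector field `G` on `X` which is tangent to the
fibres and regular at the prime divisor `P` lifts to a vector field on `X'` which is regular at the
prime divisors over `P`: if `P` dominates `Y` then `X'` is unramified over `P`, otherwise `G` is
logarithmic at `P`. Therefore the norm of the form on `X'` defined by `η` is a form along the fibres of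
`X` which takes regular values on regular vector fields. It is multiplied with generalised
Wronskians of `V`.
-/

set_option autoImplicit false

open FF Pool.Agent.W602.GT
open Pool.Agent.W619.PQ (IsUniruled)

namespace Pool.Agent.Results.MP_e06174_ag.IsotrivialFibres

/-- The function field of the image of the rational map which is given by the linear system `V`: the
field generated by the quotients of the members. -/
noncomputable def ImageField {K : Type} [Field K] [Algebra ℂ K] (V : Submodule ℂ K) :
    IntermediateField ℂ K :=
  IntermediateField.adjoin ℂ {y : K | ∃ f ∈ V, ∃ g ∈ V, y = f / g}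

/-- `γ` is a decomposition of the configuration of the members `φ i` of `V` into `c` components: `V`
has a basis of `n + 1` elements `x a`, divided into `c` nonempty groups (`x a` is in the group `g a`),
such that `φ i` is in the subspace spanned by the elements of the group `γ i`. -/
def Decomposition (n : ℕ) {q c : ℕ} {K : Type} [Field K] [Algebra ℂ K] (V : Submodule ℂ K)
    (φ : Fin q → K) (γ : Fin q → Fin c) : Prop :=
  ∃ (x : Fin (n + 1) → K) (g : Fin (n + 1) → Fin c), LinearIndependent ℂ x ∧
    Submodule.span ℂ (Set.range x) = V ∧ Function.Surjective g ∧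
    ∀ i, φ i ∈ Submodule.span ℂ (x '' {a | g a = γ i})

/-- There are `r` members `φ i` of which no two are proportional. -/
def Different (r : ℕ) {q : ℕ} {K : Type} [Field K] [Algebra ℂ K] (φ : Fin q → K) : Prop :=
  ∃ τ : Fin r → Fin q, ∀ i j, i ≠ j → ∀ t : ℂ, φ (τ i) ≠ t • φ (τ j)

/-- The condition on the multiplicities, on a variety `X` of dimension `w`: if the prime divisor `P`
of `X` is a component of one of the divisors `D i` (the order of `φ i` at `P` is not the minimum `a`
of the orders of the members of `V`), then for some members `D i`, `D i'` of the same component of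
the configuration the difference of the multiplicities of `P` is at least `s`. -/
def Multiplicities (w : ℕ) {q c : ℕ} {K : Type} [Field K] [Algebra ℂ K] (V : Submodule ℂ K)
    (φ : Fin q → K) (γ : Fin q → Fin c) (s : ℝ) : Prop :=
  ∀ P : Place ℂ K, Divisorial w P → ∀ a : ℤ, (∀ f ∈ V, f = 0 ∨ a ≤ P.ord f) →
    (∃ f ∈ V, f ≠ 0 ∧ P.ord f = a) → (∃ i, P.ord (φ i) ≠ a) →
    ∃ i i', γ i' = γ i ∧ s ≤ ((P.ord (φ i) - P.ord (φ i') : ℤ) : ℝ)

section

variable {K K' : Type} [Field K] [Field K'] [Algebra ℂ K] [Algebra ℂ K'] [Algebra K K']
  [IsScalarTower ℂ K K']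

/-- `K'` is the function field of a component `X'` of the base change of `X` to a variety `Y'` with a
generically finite map to `Y`, where `L` is the function field of `Y`: it is generated over `K` by an
element `α` which is algebraic over `L`. -/
def BaseChange (L : IntermediateField ℂ K) (α : K') : Prop :=
  IsAlgebraic L α ∧ IntermediateField.adjoin K {α} = ⊤

/-- The fibres of `X' ⇢ Y` dominate the variety `F` with the function field `M`: the elements of `K'`
are algebraic over the field which is generated by `M` and the elements which are algebraic over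
`L`. For `dim F = dim X - dim Y` this means that `X'` has a generically finite rational map to
`Y'' × F` over `Y`, where `Y''` has a generically finite map to `Y`. -/
def Dominates (L : IntermediateField ℂ K) (M : IntermediateField ℂ K') : Prop :=
  ∀ z : K', IsAlgebraic (IntermediateField.adjoin ℂ ({a : K' | IsAlgebraic L a} ∪ M)) z

/-- `X'` is birational to `Y'' × F`: the field `K'` is generated by `M` and the elements which are
algebraic over `L`. -/
def IsProduct (L : IntermediateField ℂ K) (M : IntermediateField ℂ K') : Prop :=
  IntermediateField.adjoin ℂ ({a : K' | IsAlgebraic L a} ∪ M) = ⊤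

end

theorem not_psef_of_uniruled {K : Type} [Field K] [Algebra ℂ K] [Algebra.EssFiniteType ℂ K] {n : ℕ}
    (hn : Algebra.trdeg ℂ K = n) (h : IsUniruled ℂ K n) : ¬ Psef ℂ K n (fun _ => False) :=
  fun hp => (Pool.Agent.W619.Y.uniruled_neg n hn h).1 ((Pool.Agent.TH466.QG.psef_iff n).1 hp)

/-- Let `K` be the function field of a smooth projective variety `X` of dimension `d + e`, `V` a
linear system of dimension `n` on `X` whose rational map has an image `Y` of dimension `d`,
`1 ≤ d ≤ n`; `φ i` nonzero members which span `V`, `γ` their decomposition into `c` components (there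
is no decomposition into `c + 1` components), `R = n + 3 - c`, or `R = n + 1` if `c = 1` and there are
`n + 3` different members, and `s ≥ R (n - d + 1) (n - d + 2) / 2` a number for which the condition on
the multiplicities holds. Let `X'` be a base change of `X` to a variety with a generically finite map
to `Y` and `F` a smooth projective variety of dimension `e` with function field `M`.

**(1)** If the fibres of `X'` dominate `F` and `κ(F) ≥ k ≥ 0` then `κ(X) ≥ k`, and
`κ(X) ≥ k + d + 1 - c` if the inequality for `s` is strict.

**(2)** If `X'` is birational to a product with `F` and `F` is uniruled then `X` is uniruled.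

**(3)** If `X'` is birational to a product with `F` and `F` is uniruled or has Kodaira dimension at
least `0` (as conjectured for all `F`), then the following are equivalent: `κ(X) = -∞`; `K_X` is not
pseudo-effective; `X` is uniruled; `κ(F) = -∞`; `K_F` is not pseudo-effective; `F` is uniruled. -/
theorem result (d e n q c : ℕ) (hd : 1 ≤ d) (hdn : d ≤ n) (K : Type) [Field K]
    [Algebra ℂ K] [Algebra.EssFiniteType ℂ K] (hK : Algebra.trdeg ℂ K = (d + e : ℕ))
    (V : Submodule ℂ K) (hV : Algebra.trdeg ℂ (ImageField V) = d)
    (φ : Fin q → K) (hφ0 : ∀ i, φ i ≠ 0) (hφ : Submodule.span ℂ (Set.range φ) = V)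
    (γ : Fin q → Fin c) (hγ : Decomposition n V φ γ)
    (hc : ∀ γ' : Fin q → Fin (c + 1), ¬ Decomposition n V φ γ')
    (R : ℕ) (hR : R + c = n + 3 ∨ (c = 1 ∧ Different (n + 3) φ ∧ R = n + 1)) (s : ℝ)
    (hs : (R : ℝ) * (((n : ℝ) - d + 1) * ((n : ℝ) - d + 2)) ≤ 2 * s)
    (h : Multiplicities (d + e) V φ γ s) (K' : Type) [Field K'] [Algebra ℂ K'] [Algebra K K']
    [IsScalarTower ℂ K K'] (α : K') (hα : BaseChange (ImageField V) α)
    (M : IntermediateField ℂ K') [Algebra.EssFiniteType ℂ M] (hM : Algebra.trdeg ℂ M = e) :
    (Dominates (ImageField V) M → ∀ k : ℕ, KodGe ℂ M e (fun _ => False) k →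
      KodGe ℂ K (d + e) (fun _ => False) k ∧
      ((R : ℝ) * (((n : ℝ) - d + 1) * ((n : ℝ) - d + 2)) < 2 * s →
        ∀ κ : ℕ, κ + c = d + 1 → KodGe ℂ K (d + e) (fun _ => False) (κ + k))) ∧
    (IsProduct (ImageField V) M → IsUniruled ℂ M e → IsUniruled ℂ K (d + e)) ∧
    (IsProduct (ImageField V) M → IsUniruled ℂ M e ∨ KodGe ℂ M e (fun _ => False) 0 →
      [¬ KodGe ℂ K (d + e) (fun _ => False) 0, ¬ Psef ℂ K (d + e) (fun _ => False),
        IsUniruled ℂ K (d + e), ¬ KodGe ℂ M e (fun _ => False) 0,
        ¬ Psef ℂ M e (fun _ => False), IsUniruled ℂ M e].TFAE) := by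
  have hfin : FiniteDimensional K K' := Pool.Agent.X180.Iso.fin_of_top hα.1 hα.2
  have h1 : Dominates (ImageField V) M → ∀ k : ℕ, KodGe ℂ M e (fun _ => False) k →
      KodGe ℂ K (d + e) (fun _ => False) k ∧
      ((R : ℝ) * (((n : ℝ) - d + 1) * ((n : ℝ) - d + 2)) < 2 * s →
        ∀ κ : ℕ, κ + c = d + 1 → KodGe ℂ K (d + e) (fun _ => False) (κ + k)) := by
    intro hdom k hk
    refine Pool.Agent.X180.Iso.iso_kod hd hdn hK hV hφ0 hφ hγ hc hR hs h ?_
    exact Pool.Agent.X180.Iso.fib_forms hK (Pool.Agent.X180.Iso.trdeg_rel hK hV) hα.1 hα.2 M hM
      (fun z => Pool.Agent.X180.Iso.alg_acl M (hdom z)) hk _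
  have h2 : IsProduct (ImageField V) M → IsUniruled ℂ M e → IsUniruled ℂ K (d + e) :=
    fun hp hu => Pool.Agent.X180.Iso.iso_unir hK hV hα.1 hα.2 M hM hu hp
  refine ⟨h1, h2, fun hp hF => ?_⟩
  have hdom : Dominates (ImageField V) M := by
    intro z
    have h3 : z ∈ IntermediateField.adjoin ℂ ({a : K' | IsAlgebraic (ImageField V) a} ∪ M) := by
      rw [hp]
      trivial
    exact isAlgebraic_algebraMap (⟨z, h3⟩ : IntermediateField.adjoin ℂ
      ({a : K' | IsAlgebraic (ImageField V) a} ∪ M))
  tfae_have 6 → 3 := h2 hp
  tfae_have 3 → 2 := not_psef_of_uniruled hK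
  tfae_have 2 → 1 := fun h hk => h (psef_of_kodGe hk)
  tfae_have 1 → 4 := fun h hk => h (h1 hdom 0 hk).1
  tfae_have 4 → 6 := fun h => hF.resolve_right h
  tfae_have 6 → 5 := not_psef_of_uniruled hM
  tfae_have 5 → 4 := fun h hk => h (psef_of_kodGe hk)
  tfae_finish

end Pool.Agent.Results.MP_e06174_ag.IsotrivialFibres
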