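import Pool.Agent.X180.Iso.Sys

/-!
# Kodaira dimension `-∞` for varieties over bases with highly ramified linear systems whose fibres
correspond to moving arrangements

Let `X` be a projective manifold (or a projective variety with canonical singularities) of dimension
`d + ∑ r_j` and `|V|` a linear system on `X`, without fixed components, of dimension `n`, whose
rational map `X ⇢ ℙⁿ` has an image `Y` of dimension `d`, `1 ≤ d ≤ n`. Suppose:

* (the base) `D i` (`i < q`) are members of `|V|` which span `V`, in arbitrary position, `m` is the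
  number of the components of this configuration, and at every prime divisor `P` of `X` which is a
  component of some `D i` the multiplicities of `P` in two members `D i`, `D i'` of one component of
  the configuration differ by at least `t`, where `t ≥ (n + 3 - m) (n - d + 1) (n - d + 2) / 2`;
* (the fibres) there is a correspondence between `X` and a relative product of projective spaces:
  a variety `X'` with a generically finite map `X' ⇢ X` (any finite extension `K'` of the function
  field `K`, ramified anywhere) and a generically finite map over `Y` of `X'` to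
  `Y' × P^{r_1} × ... × P^{r_c}`, `r_j ≥ 1`, `Y'` finite over `Y`, and in each `P^{r_j}` there are
  any hyperplanes `A j i = 0` which move with the point of `Y'`, with weights `w j i` in `[0, 1]`
  such that the arrangement is log canonical: the sum of the weights of hyperplanes with a common
  point is at most the codimension of their intersection. If `Q` is a place of `K'` over a prime
  divisor `P` of `X` which dominates `Y`, with ramification index `ε`, and `e j i` are the
  multiplicities of the hyperplanes at `Q`, not all zero, then `ε` is at most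
  `∑ (mx_j - ∑ w j i e j i)`, where `mx_j` is the greatest sum of `r_j + 1` of the `e j i` whose
  hyperplanes have no common point (`ε = 1`, if all `e j i` are zero); and if `Q` is a place of `K'`
  over a prime divisor of `P^{r_1} × ... × P^{r_c}` over `Y`, with ramification index `ρ`, and with
  ramification index `ε` over `K`, then `ρ - ε ≤ ∑ w j i e j i`.

For instance the fibres may be hyperelliptic or superelliptic curves or products of such curves.

Then `κ(X) = -∞` if and only if `K_X` is not pseudo-effective, which means, by the theorem of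
Boucksom, Demailly, Paun and Peternell, that `X` is uniruled. This is the case if and only if
`∑ i, w j i < r_j + 1` for some `j`. Otherwise `κ(X)` is at least the sum `big` of the `r_j` with
`∑ i, w j i > r_j + 1`, and at least `d + 1 - m + big` if the inequality for `t` is strict.

The language and the definitions of `Pool.Agent.Y172` are used: `X` is given by the homogeneous
coordinates `y` of its generic point, with values in the function field `K` of `X`; the prime divisors
of `X` are places `P` of `K`, `P.ord` is the order along `P`. If `a` is the minimum of the orders at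
`P` of the members of `V` then the multiplicity of `P` in the divisor given by `f ∈ V` is
`P.ord f - a`. `numericalDim` is `⊥` if and only if `m K_X + A` has no sections for almost all `m`.

Proof: the products of determinants of logarithmic derivatives of the linear forms along the fibres
of `X'` given by the log canonical arrangement are sections along the fibres, their norms to `K`
(`Pool.Agent.Y191.lc_low`) are multiplied by generalised Wronskians of `V`
(`Pool.Agent.TH585.SV.lin_fib`). If `∑ i, w j i < r_j + 1` for some `j` then the traces of the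
sections of `m K_X + A` vanish (`lc_ab`).
-/

set_option autoImplicit false

open FF Pool.Agent.W602.GT Pool.Agent.Y172 Pool.Agent.Y191

namespace Pool.Agent.Results.MP_e06174_ag.SystemsWithArrangementFibres

section

variable {K : Type} [Field K] [Algebra ℂ K] {N : ℕ}

/-- `X` is a projective variety of dimension `n` with canonical singularities. -/
def IsCanonicalVariety (y : Fin (N + 1) → K) (n : ℕ) : Prop :=
  NormalModel y ∧ Algebra.trdeg ℂ K = n ∧ Canonical y n

/-- The function field of the image of the rational map which is given by the linear system `V`: the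
field generated by the quotients of the members. -/
noncomputable def ImageField (V : Submodule ℂ K) : IntermediateField ℂ K :=
  IntermediateField.adjoin ℂ {y : K | ∃ f ∈ V, ∃ g ∈ V, y = f / g}

/-- `γ` is a decomposition of the configuration of the members `φ i` of `V` into `m` components: `V`
has a basis of `n + 1` elements `x a`, divided into `m` nonempty groups (`x a` is in the group `g a`),
such that `φ i` is in the subspace spanned by the elements of the group `γ i`. -/
def Decomposition (n : ℕ) {q m : ℕ} (V : Submodule ℂ K) (φ : Fin q → K) (γ : Fin q → Fin m) :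
    Prop :=
  ∃ (x : Fin (n + 1) → K) (g : Fin (n + 1) → Fin m), LinearIndependent ℂ x ∧
    Submodule.span ℂ (Set.range x) = V ∧ Function.Surjective g ∧
    ∀ i, φ i ∈ Submodule.span ℂ (x '' {a | g a = γ i})

/-- There are `r` members `φ i` of which no two are proportional. -/
def Different (r : ℕ) {q : ℕ} (φ : Fin q → K) : Prop :=
  ∃ τ : Fin r → Fin q, ∀ i j, i ≠ j → ∀ t : ℂ, φ (τ i) ≠ t • φ (τ j)

/-- The condition on the multiplicities: if the prime divisor `P` of `X` is a component of one of the
divisors `D i` (the order of `φ i` at `P` is not the minimum `a` of the orders of the members of `V`),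
then for some members `D i`, `D i'` of the same component of the configuration the difference of the
multiplicities of `P` is at least `t`. -/
def Multiplicities (y : Fin (N + 1) → K) {q m : ℕ} (V : Submodule ℂ K)
    (φ : Fin q → K) (γ : Fin q → Fin m) (t : ℝ) : Prop :=
  ∀ P, IsPrimeDivisor y P → ∀ a : ℤ, (∀ f ∈ V, f = 0 ∨ a ≤ P.ord f) →
    (∃ f ∈ V, f ≠ 0 ∧ P.ord f = a) → (∃ i, P.ord (φ i) ≠ a) →
    ∃ i i', γ i' = γ i ∧ t ≤ ((P.ord (φ i) - P.ord (φ i') : ℤ) : ℝ)

/-- There is a finite extension `K'` of `K`, and the `u ⟨j, k⟩` are the affine coordinates of a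
generically finite map, over the variety with the function field `L`, of a variety with the function
field `K'` to a product of projective spaces of dimensions `r j ≥ 1`; `A j i` are the coefficients of
hyperplanes, algebraic over `L`, with weights `w j i` in `[0, 1]` such that the arrangement is log
canonical (`LcArr`). The multiplicities are bounded at the places over the prime divisors of `X`
which are trivial on `L` (`LcHor`) and at the places over the prime divisors of the product
(`RamK`). -/
def Fibres (y : Fin (N + 1) → K) (L : IntermediateField ℂ K) {c : ℕ}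
    (r s : Fin c → ℕ) (w : ∀ j, Fin (s j) → ℚ) : Prop :=
  (∀ j, 1 ≤ r j ∧ ∀ i, 0 ≤ w j i ∧ w j i ≤ 1) ∧
  ∃ (K' : Type) (_ : Field K') (_ : Algebra ℂ K') (_ : Algebra K K') (_ : IsScalarTower ℂ K K')
    (_ : FiniteDimensional K K') (A : ∀ j, Fin (s j) → Fin (r j + 1) → K')
    (u : (Σ j, Fin (r j)) → K'),
    LcArr (upF K' L) A w ∧ IsTranscendenceBasis (upF K' L) u ∧
    LcHor L A u w {P | IsPrimeDivisor y P} (fun _ => 0) ∧ RamK K (upF K' L) A u w

/-- the sum of the dimensions `r j` for which the sum of the weights is greater than `r j + 1` -/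
def big {c : ℕ} (r s : Fin c → ℕ) (w : ∀ j, Fin (s j) → ℚ) : ℕ :=
  ∑ j, if (r j + 1 : ℚ) < ∑ i, w j i then r j else 0

/-- If the sums of the weights are at least `r j + 1` then the Kodaira dimension of `X` is at least
`k`; otherwise the Kodaira dimension and the numerical dimension (with respect to any effective
divisor `A`) are `-∞`. -/
def Nonvanishing (y : Fin (N + 1) → K) (n k : ℕ) {c : ℕ} (r s : Fin c → ℕ)
    (w : ∀ j, Fin (s j) → ℚ) : Prop :=
  ((∀ j, (r j + 1 : ℚ) ≤ ∑ i, w j i) → (k : WithBot ℕ) ≤ kodairaDim y n 0) ∧
  ((∃ j, ∑ i, w j i < (r j + 1 : ℚ)) → kodairaDim y n 0 = ⊥ ∧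
    ∀ A, Effective y A → numericalDim y n 0 A = ⊥)

end

theorem exists_idx {c : ℕ} (r q : Fin c → ℕ) (w : ∀ j, Fin (q j) → ℚ) :
    ∃ κ : Fin (big r q w) → Σ j, Fin (r j), Function.Injective κ ∧
      ∀ i, (r (κ i).1 + 1 : ℚ) < ∑ i', w (κ i).1 i' := by
  classical
  have h1 : Fintype.card {x : Σ j, Fin (r j) // (r x.1 + 1 : ℚ) < ∑ i, w x.1 i} = big r q w := by
    rw [Fintype.card_subtype, Finset.card_filter, Fintype.sum_sigma]
    refine Finset.sum_congr rfl fun j _ => ?_
    change ∑ _k : Fin (r j), (if (r j + 1 : ℚ) < ∑ i, w j i then 1 else 0) = _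
    rw [Finset.sum_const, Finset.card_univ, Fintype.card_fin, smul_eq_mul, mul_ite, mul_one,
      mul_zero]
  let φ := Fintype.equivFinOfCardEq h1
  exact ⟨fun i => (φ.symm i : Σ j, Fin (r j)), fun a b hab => φ.symm.injective (Subtype.ext hab),
    fun i => (φ.symm i).2⟩

theorem nonvanishing_of {K : Type} [Field K] [Algebra ℂ K] {N n k c : ℕ} {y : Fin (N + 1) → K}
    {r s : Fin c → ℕ} {w : ∀ j, Fin (s j) → ℚ} {L : IntermediateField ℂ K}
    (hy : IsCanonicalVariety y n) (hle : ∑ j, r j ≤ n) {K' : Type} [Field K'] [Algebra ℂ K']
    [Algebra K K'] [IsScalarTower ℂ K K'] [FiniteDimensional K K']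
    {A : ∀ j, Fin (s j) → Fin (r j + 1) → K'}
    {u : (Σ j, Fin (r j)) → K'} (hw : ∀ j, 1 ≤ r j ∧ ∀ i, 0 ≤ w j i ∧ w j i ≤ 1)
    (hA : LcArr (upF K' L) A w) (hu : IsTranscendenceBasis (upF K' L) u)
    (hC : RamK K (upF K' L) A u w)
    (hK : (∀ j, (r j + 1 : ℚ) ≤ ∑ i, w j i) → KodairaGe n {P | IsPrimeDivisor y P}
      (fun _ => 0) k) : Nonvanishing y n k r s w := by
  have h00 : Effective y (0 : Place ℂ K → ℚ) := ⟨fun _ _ => le_rfl, by simp⟩
  refine ⟨fun hws => ?_, (lc_ab hy.1 hy.2.1 h00 hA.1 hu (fun j => (hw j).1)
    (fun j i => ((hw j).2 i).1) (fun j i => ((hw j).2 i).2) (hC.cor hy.2.1 hy.2.2 hu)).1⟩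
  refine lc_nv hy.1 hy.2.1 h00 hA.1 hu (fun j => (hw j).1)
    (fun j i => ((hw j).2 i).1) (fun j i => ((hw j).2 i).2) (hC.cor hy.2.1 hy.2.2 hu) hws
    hle ?_
  have h4 : (fun P => (((0 : Place ℂ K → ℚ) P : ℚ) : ℝ)) = fun _ : Place ℂ K => (0 : ℝ) :=
    funext fun P => Rat.cast_zero
  rw [h4]
  exact hK hws

/-- **Kodaira dimension `-∞`.** Let `X` be a projective variety with canonical singularities of
dimension `d + ∑ j, r j`, `V` a linear system of dimension `n` on `X` whose rational map has an image
`Y` of dimension `d`, `1 ≤ d ≤ n`; `φ i` nonzero members which span `V`, `γ` their decomposition into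
`m` components (there is no decomposition into `m + 1` components), `R = n + 3 - m`, or `R = n + 1`
if `m = 1` and there are `n + 3` different members, and `t ≥ R (n - d + 1) (n - d + 2) / 2` a number
for which the condition on the multiplicities holds. Let the fibres be as in `Fibres`. Then
`κ(X) ≥ big ≥ 0` if `r j + 1 ≤ ∑ i, w j i` for all `j`, and otherwise `κ(X) = -∞` and `K_X` is not
pseudo-effective. If the inequality for `t` is strict then `κ(X) ≥ d + 1 - m + big` in the first
case. -/
theorem result {d n q m : ℕ} (hd : 1 ≤ d) (hdn : d ≤ n) (K : Type) [Field K] [Algebra ℂ K]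
    (N c : ℕ) (r s : Fin c → ℕ) (y : Fin (N + 1) → K) (hy : IsCanonicalVariety y (d + ∑ j, r j))
    (V : Submodule ℂ K) (hV : Algebra.trdeg ℂ (ImageField V) = d)
    (φ : Fin q → K) (hφ0 : ∀ i, φ i ≠ 0) (hφ : Submodule.span ℂ (Set.range φ) = V)
    (γ : Fin q → Fin m) (hγ : Decomposition n V φ γ)
    (hm : ∀ γ' : Fin q → Fin (m + 1), ¬ Decomposition n V φ γ')
    (R : ℕ) (hR : R + m = n + 3 ∨ (m = 1 ∧ Different (n + 3) φ ∧ R = n + 1)) (t : ℝ)
    (ht : (R : ℝ) * (((n : ℝ) - d + 1) * ((n : ℝ) - d + 2)) ≤ 2 * t)
    (h : Multiplicities y V φ γ t) (w : ∀ j, Fin (s j) → ℚ)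
    (hF : Fibres y (ImageField V) r s w) :
    Nonvanishing y (d + ∑ j, r j) (big r s w) r s w ∧
    ((R : ℝ) * (((n : ℝ) - d + 1) * ((n : ℝ) - d + 2)) < 2 * t →
      ∀ κ : ℕ, κ + m = d + 1 →
        Nonvanishing y (d + ∑ j, r j) (κ + big r s w) r s w) := by
  obtain ⟨hw, K', _, _, _, _, _, A, u, hA, hu, hH, hC⟩ := hF
  obtain ⟨κ, hκ, hκs⟩ := exists_idx r s w
  have h1 := fun hws => Pool.Agent.X180.Iso.sys_kod (X := {P | IsPrimeDivisor y P}) hd hdn
    hy.2.1 hV hφ0 hφ hγ hm hR ht
    (fun P hPX _ a ha hb hc => h P hPX a ha hb hc) (lc_low (N := d + ∑ j, r j)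
      (Pool.Agent.X180.Iso.trdeg_rel' hy.2.1 hV) hA finSigmaFinEquiv hu
      (fun j i => ((hw j).2 i).1) hws hκ hκs (fun _ _ => le_rfl) hH)
  refine ⟨nonvanishing_of hy (by omega) hw hA hu hC fun hws => (h1 hws).1, fun hlt κ' hκ' =>
    nonvanishing_of hy (by omega) hw hA hu hC fun hws => (h1 hws).2 hlt κ' hκ'⟩

end Pool.Agent.Results.MP_e06174_ag.SystemsWithArrangementFibres
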